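import Pool.Agent.W668.Uni.Stmts

/-! Restriction of the problem to a fixed first variable, and the scaling law of the
normalised half period for `F = y cos t`. -/

set_option autoImplicit false

open Set MeasureTheory
open scoped ContDiff Topology

namespace Pool.Agent.W739.Uni

open Pool.Agent.W668.Uni

noncomputable section

theorem evX_mkX {u : ℝ → ℝ} (hu : Continuous u) {x : ℝ} (h0 : 0 ≤ x) (h1 : x ≤ 1) :
    evX (mkX u) x = u x := by
  unfold evX mkX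
  have hc : Continuous (fun x : I1 => u x) := hu.comp continuous_subtype_val
  rw [dif_pos hc]
  show u (Set.projIcc (0 : ℝ) 1 zero_le_one x) = u x
  rw [Set.projIcc_of_mem zero_le_one (⟨h0, h1⟩ : x ∈ Set.Icc (0 : ℝ) 1)]

theorem X_ext {f g : X} (h : ∀ x : ℝ, 0 ≤ x → x ≤ 1 → evX f x = evX g x) : f = g := by
  ext x
  have := h x x.2.1 x.2.2
  unfold evX at this
  rwa [Set.projIcc_val] at this

theorem Y_ext {f g : Y} (h : ∀ y t : ℝ, 0 ≤ y → y ≤ 1 → 0 ≤ t → t ≤ Real.pi / 2 →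
    evY f y t = evY g y t) : f = g := by
  ext z
  obtain ⟨y, t⟩ := z
  have := h y t y.2.1 y.2.2 t.2.1 t.2.2
  unfold evY at this
  rwa [Set.projIcc_val, Set.projIcc_val] at this

theorem evX_mul (f g : X) (x : ℝ) : evX (f * g) x = evX f x * evX g x := rfl
theorem evX_sub (f g : X) (x : ℝ) : evX (f - g) x = evX f x - evX g x := rfl
theorem evX_smul (r : ℝ) (f : X) (x : ℝ) : evX (r • f) x = r * evX f x := rfl
theorem evX_zero (x : ℝ) : evX 0 x = 0 := rfl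
theorem evY_mul (f g : Y) (y t : ℝ) : evY (f * g) y t = evY f y t * evY g y t := rfl
theorem evY_smul (r : ℝ) (f : Y) (y t : ℝ) : evY (r • f) y t = r * evY f y t := rfl

theorem evY_w {t : ℝ} (y : ℝ) (h0 : 0 ≤ t) (h1 : t ≤ Real.pi / 2) : evY w y t = Real.sin t := by
  unfold evY w
  show Real.sin (Set.projIcc (0 : ℝ) (Real.pi / 2) Th_le t) = Real.sin t
  rw [Set.projIcc_of_mem Th_le (⟨h0, h1⟩ : t ∈ Set.Icc (0 : ℝ) (Real.pi / 2))]

theorem evY_c {t : ℝ} (y : ℝ) (h0 : 0 ≤ t) (h1 : t ≤ Real.pi / 2) : evY c y t = Real.cos t := by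
  unfold evY c
  show Real.cos (Set.projIcc (0 : ℝ) (Real.pi / 2) Th_le t) = Real.cos t
  rw [Set.projIcc_of_mem Th_le (⟨h0, h1⟩ : t ∈ Set.Icc (0 : ℝ) (Real.pi / 2))]

theorem norm_w : ‖w‖ ≤ 1 := by
  refine (ContinuousMap.norm_le _ zero_le_one).2 fun z => ?_
  exact Real.abs_sin_le_one _

theorem norm_c : ‖c‖ ≤ 1 := by
  refine (ContinuousMap.norm_le _ zero_le_one).2 fun z => ?_
  exact Real.abs_cos_le_one _

/-- restriction to the first variable `y` -/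
def resM (y : I1) : C(I1 × Th, I1 × Th) := ⟨fun z => (y, z.2), by fun_prop⟩

/-- restriction to the first variable `y` -/
def R (y : I1) : Y →L[ℝ] Y := compL (resM y)

theorem R_apply (y : I1) (h : Y) (z : I1 × Th) : R y h z = h (y, z.2) := rfl

theorem R_mul (y : I1) (h k : Y) : R y (h * k) = R y h * R y k := rfl

theorem R_one (y : I1) : R y 1 = 1 := rfl

theorem R_pow (y : I1) (h : Y) (n : ℕ) : R y (h ^ n) = R y h ^ n := by
  ext z
  simp [R_apply]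

theorem R_w (y : I1) : R y w = w := rfl

theorem R_c (y : I1) : R y c = c := rfl

theorem evY_R (y : I1) (h : Y) (y' t : ℝ) : evY (R y h) y' t = evY h y t := by
  unfold evY
  rw [R_apply, Set.projIcc_val]

theorem norm_R (y : I1) (h : Y) : ‖R y h‖ ≤ ‖h‖ := by
  refine (ContinuousMap.norm_le _ (norm_nonneg _)).2 fun z => ?_
  exact ContinuousMap.norm_coe_le_norm h _

theorem R_S3 (O : Ops) (y : I1) (h : Y) : R y (O.S3 h) = O.S3 (R y h) := by
  apply Y_ext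
  intro y' t hy0 hy1 ht0 ht1
  have key : ∀ s : ℝ, 0 < s → s ≤ Real.pi / 2 →
      evY (R y (O.S3 h)) y' s = evY (O.S3 (R y h)) y' s := by
    intro s hs0 hs1
    have h1 := O.S3_ev h y s hs0.le hs1
    have h2 := O.S3_ev (R y h) y' s hs0.le hs1
    have h3 : Real.sin s ^ 3 ≠ 0 :=
      (pow_pos (Real.sin_pos_of_pos_of_lt_pi hs0 (by linarith [Real.pi_pos])) 3).ne'
    simp only [evY_R] at h2 ⊢
    exact mul_left_cancel₀ h3 (h1.trans h2.symm)
  rcases ht0.lt_or_eq with h0 | h0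
  · exact key t h0 ht1
  · have hc1 : Continuous (fun s : ℝ => evY (R y (O.S3 h)) y' s) :=
      (continuous_evY _).comp (continuous_const.prodMk continuous_id)
    have hc2 : Continuous (fun s : ℝ => evY (O.S3 (R y h)) y' s) :=
      (continuous_evY _).comp (continuous_const.prodMk continuous_id)
    have hcl : IsClosed {s : ℝ | evY (R y (O.S3 h)) y' s = evY (O.S3 (R y h)) y' s} :=
      isClosed_eq hc1 hc2
    have hsub : Set.Ioc (0 : ℝ) (Real.pi / 2) ⊆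
        {s : ℝ | evY (R y (O.S3 h)) y' s = evY (O.S3 (R y h)) y' s} := fun s hs =>
      key s hs.1 hs.2
    have hmem : (0 : ℝ) ∈ closure (Set.Ioc (0 : ℝ) (Real.pi / 2)) := by
      rw [closure_Ioc (by positivity : (0 : ℝ) ≠ Real.pi / 2).symm.symm]
      exact ⟨le_refl _, Th_le⟩
    rw [← h0]
    exact hcl.closure_subset_iff.2 hsub hmem

theorem R_W (O : Ops) (y : I1) (h : Y) (x : ℝ) : evX (O.W (R y h)) x = evX (O.W h) y := by
  rw [O.W_ev, O.W_ev]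
  simp only [evY_R]

theorem R_inverse (y : I1) {u : Y} (hu : IsUnit u) :
    R y (Ring.inverse u) = Ring.inverse (R y u) := by
  have h1 : R y (Ring.inverse u) * R y u = 1 := by
    rw [← R_mul, Ring.inverse_mul_cancel u hu, R_one]
  have h2 : IsUnit (R y u) := IsUnit.of_mul_eq_one _ (by rw [mul_comm]; exact h1)
  calc R y (Ring.inverse u) = R y (Ring.inverse u) * (R y u * Ring.inverse (R y u)) := by
        rw [Ring.mul_inverse_cancel _ h2, mul_one]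
    _ = Ring.inverse (R y u) := by rw [← mul_assoc, h1, one_mul]

theorem isUnit_dd {ε : ℝ} {η : Y} (h : |ε| * ‖η‖ ≤ 1 / 4) : IsUnit (dd ε η) := by
  have e : dd ε η = 1 - (-(ε • (w ^ 3 * xi ε η))) := by
    unfold dd
    ring
  rw [e]
  apply isUnit_one_sub_of_norm_lt_one
  rw [norm_neg, norm_smul, Real.norm_eq_abs]
  have hw3 : ‖w ^ 3‖ ≤ 1 := by
    calc ‖w ^ 3‖ ≤ ‖w‖ ^ 3 := norm_pow_le' _ (by norm_num)
      _ ≤ 1 := pow_le_one₀ (norm_nonneg _) norm_w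
  have hxi : ‖xi ε η‖ ≤ 2 * ‖η‖ + |ε| * ‖η‖ ^ 2 := by
    unfold xi
    refine (norm_add_le _ _).trans ?_
    rw [norm_smul, norm_smul, Real.norm_eq_abs, Real.norm_eq_abs, abs_two]
    have : ‖w * η ^ 2‖ ≤ ‖η‖ ^ 2 := by
      calc ‖w * η ^ 2‖ ≤ ‖w‖ * ‖η ^ 2‖ := norm_mul_le _ _
        _ ≤ 1 * ‖η‖ ^ 2 := mul_le_mul norm_w (norm_pow_le' _ (by norm_num)) (norm_nonneg _) zero_le_one
        _ = ‖η‖ ^ 2 := one_mul _
    nlinarith [abs_nonneg ε]
  have h1 : ‖w ^ 3 * xi ε η‖ ≤ 2 * ‖η‖ + |ε| * ‖η‖ ^ 2 := by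
    calc ‖w ^ 3 * xi ε η‖ ≤ ‖w ^ 3‖ * ‖xi ε η‖ := norm_mul_le _ _
      _ ≤ 1 * ‖xi ε η‖ := mul_le_mul_of_nonneg_right hw3 (norm_nonneg _)
      _ ≤ _ := by rw [one_mul]; exact hxi
  have h2 : |ε| * ‖w ^ 3 * xi ε η‖ ≤ 2 * (|ε| * ‖η‖) + (|ε| * ‖η‖) ^ 2 := by
    have := mul_le_mul_of_nonneg_left h1 (abs_nonneg ε)
    nlinarith
  have h3 : 0 ≤ |ε| * ‖η‖ := by positivity
  nlinarith

theorem R_xi (y : I1) (ε : ℝ) (η : Y) : R y (xi ε η) = xi ε (R y η) := by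
  unfold xi
  rw [map_add, map_smul, map_smul, R_mul, R_pow, R_w]

theorem R_dd (y : I1) (ε : ℝ) (η : Y) : R y (dd ε η) = dd ε (R y η) := by
  unfold dd
  rw [map_add, map_smul, R_mul, R_pow, R_w, R_xi, R_one]

theorem R_di (y : I1) {ε : ℝ} {η : Y} (h : |ε| * ‖η‖ ≤ 1 / 4) :
    R y (di ε η) = di ε (R y η) := by
  unfold di
  rw [R_inverse y (isUnit_dd h), R_dd]

theorem R_kapE (y : I1) {ε : ℝ} {ηp ηm : Y} (hp : |ε| * ‖ηp‖ ≤ 1 / 4)
    (hm : |ε| * ‖ηm‖ ≤ 1 / 4) : R y (kapE ε ηp ηm) = kapE ε (R y ηp) (R y ηm) := by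
  have hm' : |-ε| * ‖ηm‖ ≤ 1 / 4 := by rwa [abs_neg]
  unfold kapE
  rw [map_neg, R_mul, R_mul, R_mul, R_mul, R_pow, R_w, R_c, map_add, R_xi, R_xi, R_di y hp,
    R_di y hm']

theorem R_eqn (O : Ops) (y : I1) {ε : ℝ} {F η : Y} (h : EtaEq O ε F η) :
    EtaEq O ε (R y F) (R y η) := by
  unfold EtaEq at h ⊢
  have h1 := congrArg (R y) h
  rw [map_sub, map_neg, R_S3, R_mul, map_add, map_smul, R_mul, map_smul, R_mul, R_pow, R_w,
    R_one] at h1
  exact h1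

variable {O : Ops} {M e₀ : ℝ} {η : ℝ × Y → Y}

theorem eta_R (hη : EtaSol O M e₀ η) {p : ℝ × Y} (hp : p ∈ dom e₀ M) (y : I1) :
    η (p.1, R y p.2) = R y (η p) := by
  have hp' : (p.1, R y p.2) ∈ dom e₀ M := ⟨hp.1, (norm_R y p.2).trans_lt hp.2⟩
  refine (hη.uniq _ hp' (R y (η p)) ?_ (R_eqn O y (hη.eqn p hp))).symm
  have h1 := hη.bound p hp
  have h2 : |p.1| * ‖R y (η p)‖ ≤ |p.1| * ‖η p‖ :=
    mul_le_mul_of_nonneg_left (norm_R y _) (abs_nonneg _)
  show |p.1| * ‖R y (η p)‖ ≤ 1 / 2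
  linarith

theorem eta_scale (hη : EtaSol O M e₀ η) (hM : 1 < M) {ε a : ℝ} (hε : |ε| < e₀) (ha0 : 0 ≤ a)
    (ha1 : a ≤ 1) : η (ε, a • c) = a • η (ε * a, c) := by
  have habs : |ε * a| ≤ |ε| := by
    rw [abs_mul, abs_of_nonneg ha0]
    nlinarith [abs_nonneg ε]
  have hp1 : (ε, a • c) ∈ dom e₀ M := by
    refine ⟨hε, ?_⟩
    show ‖a • c‖ < M
    rw [norm_smul, Real.norm_eq_abs, abs_of_nonneg ha0]
    have := norm_c
    nlinarith [norm_nonneg c]
  have hp2 : (ε * a, c) ∈ dom e₀ M := ⟨habs.trans_lt hε, norm_c.trans_lt hM⟩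
  refine (hη.uniq _ hp1 (a • η (ε * a, c)) ?_ ?_).symm
  · have h1 := hη.bound _ hp2
    show |ε| * ‖a • η (ε * a, c)‖ ≤ 1 / 2
    rw [norm_smul, Real.norm_eq_abs, ← mul_assoc, ← abs_mul]
    have h1' : |ε * a| * ‖η (ε * a, c)‖ ≤ 1 / 4 := h1
    linarith
  · have h2 : EtaEq O (ε * a) c (η (ε * a, c)) := hη.eqn _ hp2
    show EtaEq O ε (a • c) (a • η (ε * a, c))
    unfold EtaEq at h2 ⊢
    set h := η (ε * a, c) with hh
    have e1 : a • c * (1 + ε • (w * a • h)) = a • (c * (1 + (ε * a) • (w * h))) := by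
      rw [mul_smul_comm, smul_smul, smul_mul_assoc]
    have e2 : (ε / 2) • (w * (a • h) ^ 2) = a • ((ε * a / 2) • (w * h ^ 2)) := by
      rw [smul_pow, mul_smul_comm, smul_smul, smul_smul]
      congr 1
      ring
    rw [e1, map_smul, e2]
    calc a • h = a • (-O.S3 (c * (1 + (ε * a) • (w * h))) - (ε * a / 2) • (w * h ^ 2)) := by
          rw [← h2]
      _ = _ := by rw [smul_sub, smul_neg]

/-- the function `f(x) = x` -/
def idX : X := mkX (fun x => x)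

theorem evX_idX {x : ℝ} (h0 : 0 ≤ x) (h1 : x ≤ 1) : evX idX x = x :=
  evX_mkX continuous_id h0 h1

theorem norm_idX : ‖idX‖ ≤ 1 := by
  refine (ContinuousMap.norm_le _ zero_le_one).2 fun z => ?_
  have h := evX_idX z.2.1 z.2.2
  unfold evX at h
  rw [Set.projIcc_val] at h
  rw [h, Real.norm_eq_abs, abs_of_nonneg z.2.1]
  exact z.2.2

theorem R_lift_id (O : Ops) (y : I1) : R y (O.lift idX) = (y : ℝ) • c := by
  apply Y_ext
  intro y' t _ _ ht0 ht1
  have hc0 : 0 ≤ Real.cos t := Real.cos_nonneg_of_neg_pi_div_two_le_of_le (by linarith) ht1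
  have hc1 : Real.cos t ≤ 1 := Real.cos_le_one t
  rw [evY_R, O.lift_ev idX y t y.2.1 y.2.2 ht0 ht1, evY_smul, evY_c y' ht0 ht1]
  apply evX_idX (mul_nonneg y.2.1 hc0)
  calc (y : ℝ) * Real.cos t ≤ 1 * 1 := mul_le_mul y.2.2 hc1 hc0 zero_le_one
    _ = 1 := one_mul 1

theorem xi_scale (ε a : ℝ) (h : Y) : xi ε (a • h) = a • xi (ε * a) h := by
  unfold xi
  rw [smul_pow, mul_smul_comm, smul_add, smul_smul, smul_smul, smul_smul, smul_smul]
  congr 2
  · ring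
  · ring

theorem dd_scale (ε a : ℝ) (h : Y) : dd ε (a • h) = dd (ε * a) h := by
  unfold dd
  rw [xi_scale, mul_smul_comm, smul_smul]

theorem di_scale (ε a : ℝ) (h : Y) : di ε (a • h) = di (ε * a) h := by
  unfold di
  rw [dd_scale]

theorem kapE_scale (ε a : ℝ) (hp hm : Y) :
    kapE ε (a • hp) (a • hm) = a • kapE (ε * a) hp hm := by
  unfold kapE
  rw [xi_scale, xi_scale, di_scale, di_scale, neg_mul, ← smul_add, mul_smul_comm, smul_mul_assoc,
    smul_mul_assoc, smul_neg]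

theorem That_apply (O : Ops) (η : ℝ × Y → Y) (ε : ℝ) (F : Y) :
    That O η (ε, F) = O.W (F * kapE ε (η (ε, F)) (η (-ε, F))) := rfl

/-- the scaling law -/
theorem That_scale (hη : EtaSol O M e₀ η) (hM : 1 < M) {ε : ℝ} (hε : |ε| < e₀) (y : I1) :
    evX (That O η (ε, O.lift idX)) y = (y : ℝ) ^ 2 * evX (That O η (ε * y, c)) 1 := by
  have hF : ‖O.lift idX‖ < M := (O.lift_norm idX).trans_lt (norm_idX.trans_lt hM)
  have hp : (ε, O.lift idX) ∈ dom e₀ M := ⟨hε, hF⟩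
  have hm : (-ε, O.lift idX) ∈ dom e₀ M := ⟨by rw [abs_neg]; exact hε, hF⟩
  have b1 : |ε| * ‖η (ε, O.lift idX)‖ ≤ 1 / 4 := hη.bound _ hp
  have b2 : |ε| * ‖η (-ε, O.lift idX)‖ ≤ 1 / 4 := by
    have := hη.bound _ hm
    simpa using this
  rw [That_apply, That_apply, ← R_W O y _ 1, R_mul, R_lift_id, R_kapE y b1 b2,
    ← eta_R hη hp y, ← eta_R hη hm y]
  show evX (O.W ((y : ℝ) • c * kapE ε (η (ε, R y (O.lift idX))) (η (-ε, R y (O.lift idX))))) 1 = _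
  rw [R_lift_id, eta_scale hη hM hε y.2.1 y.2.2,
    eta_scale hη hM (by rw [abs_neg]; exact hε) y.2.1 y.2.2, kapE_scale, smul_mul_smul_comm,
    map_smul, evX_smul, neg_mul]
  ring

end

end Pool.Agent.W739.Uni
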