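import Pool.Agent.W739.Uni.Wv

/-! UNI-WFN: the right-hand side. -/

set_option autoImplicit false

open Set MeasureTheory
open scoped ContDiff Topology

namespace Pool.Agent.W739.Uni

open Pool.Agent.W668.Uni

noncomputable section

variable {O : Ops} {M e₀ : ℝ} {η : ℝ × Y → Y}

theorem isOpen_dom (e₀ M : ℝ) : IsOpen (dom e₀ M) := by
  have h1 : IsOpen {p : ℝ × Y | |p.1| < e₀} :=
    isOpen_lt (continuous_fst.abs) continuous_const
  have h2 : IsOpen {p : ℝ × Y | ‖p.2‖ < M} :=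
    isOpen_lt (continuous_snd.norm) continuous_const
  exact h1.inter h2

/-- `z(s) = T̂(s, cos t)(1)` -/
def zf (O : Ops) (η : ℝ × Y → Y) (s : ℝ) : ℝ := evX (That O η (s, c)) 1

theorem zf_smooth (hsmo : P_smo) (hη : EtaSol O M e₀ η) (hM : 1 < M) {s : ℝ} (hs : |s| < e₀) :
    ContDiffAt ℝ ∞ (zf O η) s := by
  have hmem : (s, c) ∈ dom e₀ M := ⟨hs, norm_c.trans_lt hM⟩
  have h1 : ContDiffAt ℝ ∞ (kE η) (s, c) :=
    ((hsmo O M e₀ η hη).1 (s, c) hmem).contDiffAt ((isOpen_dom e₀ M).mem_nhds hmem)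
  have h2 : ContDiffAt ℝ ∞ (fun s : ℝ => kE η (s, c)) s :=
    ContDiffAt.comp (f := fun s : ℝ => (s, c)) s h1
      (contDiff_id.prodMk contDiff_const).contDiffAt
  have h3 : ContDiffAt ℝ ∞ (fun s : ℝ => O.W (c * kE η (s, c))) s :=
    O.W.contDiff.contDiffAt.comp s (contDiffAt_const.mul h2)
  exact (ContinuousMap.evalCLM ℝ (Set.projIcc (0 : ℝ) 1 zero_le_one (1 : ℝ))).contDiff.contDiffAt.comp
    s h3

theorem exists_zh (hsmo : P_smo) (hη : EtaSol O M e₀ η) (hM : 1 < M) :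
    ∃ zh : ℝ → ℝ, ContDiff ℝ ∞ zh ∧ ∀ s : ℝ, |s| < e₀ / 2 → zh s = zf O η s := by
  have he := hη.pos
  let f : ContDiffBump (0 : ℝ) := ⟨e₀ / 2, 3 * e₀ / 4, by positivity, by linarith⟩
  refine ⟨fun s => f s * zf O η s, ?_, ?_⟩
  · rw [contDiff_iff_contDiffAt]
    intro s
    by_cases hs : |s| < e₀
    · exact f.contDiff.contDiffAt.mul (zf_smooth hsmo hη hM hs)
    · have hs' : 3 * e₀ / 4 < |s| := by
        have := not_lt.1 hs
        linarith
      have hopen : IsOpen {x : ℝ | 3 * e₀ / 4 < |x|} := isOpen_lt continuous_const continuous_abs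
      have hev : (fun s => f s * zf O η s) =ᶠ[𝓝 s] fun _ => (0 : ℝ) := by
        filter_upwards [hopen.mem_nhds hs'] with x hx
        have : f x = 0 := f.zero_of_le_dist (by
          rw [Real.dist_eq, sub_zero]
          exact (le_of_lt hx))
        rw [this, zero_mul]
      exact contDiffAt_const.congr_of_eventuallyEq hev
  · intro s hs
    have : f s = 1 := f.one_of_mem_closedBall (by
      rw [Metric.mem_closedBall, Real.dist_eq, sub_zero]
      exact hs.le)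
    show f s * zf O η s = zf O η s
    rw [this, one_mul]

theorem evX_P (O : Ops) (g : X) (y : ℝ) (hy0 : 0 ≤ y) (hy1 : y ≤ 1) :
    evX (O.P g) y = 4 * ∫ t in (0 : ℝ)..(Real.pi / 2),
      Real.sin t ^ 2 * Real.cos t ^ 2 * evX g (y * Real.cos t) := by
  unfold Ops.P
  rw [O.W_ev, ← intervalIntegral.integral_const_mul]
  apply intervalIntegral.integral_congr
  intro t ht
  rw [Set.uIcc_of_le Th_le] at ht
  show Real.sin t ^ 2 * evY ((4 : ℝ) • (c ^ 2 * O.lift g)) y t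
    = 4 * (Real.sin t ^ 2 * Real.cos t ^ 2 * evX g (y * Real.cos t))
  rw [evY_smul, evY_mul, O.lift_ev g y t hy0 hy1 ht.1 ht.2, pow_two c, evY_mul,
    evY_c y ht.1 ht.2]
  ring

theorem cos_mem {y t : ℝ} (hy0 : 0 ≤ y) (hy1 : y ≤ 1) (h0 : 0 ≤ t) (h1 : t ≤ Real.pi / 2) :
    0 ≤ y * Real.cos t ∧ y * Real.cos t ≤ y ∧ y * Real.cos t ≤ 1 := by
  have hc0 : 0 ≤ Real.cos t := Real.cos_nonneg_of_neg_pi_div_two_le_of_le (by linarith) h1
  have hc1 : Real.cos t ≤ 1 := Real.cos_le_one t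
  have h2 : y * Real.cos t ≤ y := mul_le_of_le_one_right hy0 hc1
  exact ⟨mul_nonneg hy0 hc0, h2, h2.trans hy1⟩

theorem evX_b_id (O : Ops) {x : ℝ} (h0 : 0 ≤ x) (h1 : x ≤ 1) : evX (O.b idX) x = x / 3 := by
  rw [O.b_ev _ x h0 h1]
  have e : ∫ u in (0 : ℝ)..1, u * evX idX (x * u) = ∫ u in (0 : ℝ)..1, x * u ^ 2 := by
    apply intervalIntegral.integral_congr
    intro u hu
    rw [Set.uIcc_of_le zero_le_one] at hu
    show u * evX idX (x * u) = x * u ^ 2
    rw [evX_idX (mul_nonneg h0 hu.1)]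
    · ring
    · calc x * u ≤ 1 * 1 := mul_le_mul h1 hu.2 hu.1 zero_le_one
        _ = 1 := one_mul 1
  rw [e, intervalIntegral.integral_const_mul, integral_pow]
  norm_num
  ring

theorem zf_zero (hlead : P_lead) (hη : EtaSol O M e₀ η) (hM : 1 < M)
    {χ C b₀ f₀ : ℝ → ℝ} (hF : F0Data χ C b₀ f₀) : zf O η 0 = Real.pi / 24 := by
  have hy : (1 / 4 : ℝ) ∈ Set.Icc (0 : ℝ) 1 := by norm_num
  have h1 := That_scale hη hM (ε := 0) (by simpa using hη.pos) ⟨1 / 4, hy⟩
  simp only [zero_mul] at h1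
  have h2 := ((hlead O M e₀ η hη) idX (norm_idX.trans_lt hM)).1
  rw [h2, evX_P O _ _ (by norm_num) (by norm_num)] at h1
  have h3 := hF.main (1 / 4) (by norm_num) (by norm_num)
  have e : ∫ t in (0 : ℝ)..(Real.pi / 2), Real.sin t ^ 2 * Real.cos t ^ 2 *
        evX (idX * O.b idX) (1 / 4 * Real.cos t)
      = ∫ t in (0 : ℝ)..(Real.pi / 2), Real.sin t ^ 2 * Real.cos t ^ 2 *
      (f₀ (1 / 4 * Real.cos t) * b₀ (1 / 4 * Real.cos t)) := by
    apply intervalIntegral.integral_congr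
    intro t ht
    rw [Set.uIcc_of_le Th_le] at ht
    obtain ⟨c0, c1, c2⟩ := cos_mem (y := 1 / 4) (by norm_num) (by norm_num) ht.1 ht.2
    show Real.sin t ^ 2 * Real.cos t ^ 2 * evX (idX * O.b idX) (1 / 4 * Real.cos t)
      = Real.sin t ^ 2 * Real.cos t ^ 2 * (f₀ (1 / 4 * Real.cos t) * b₀ (1 / 4 * Real.cos t))
    rw [evX_mul, evX_idX c0 c2, evX_b_id O c0 c2, hF.f_near _ c1, hF.b_near _ c1]
  rw [e, h3, hF.C_eq, hF.χ_zero _ (le_refl _)] at h1
  have h4 : zf O η 0 = evX (That O η (0, c)) 1 := rfl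
  rw [← h4] at h1
  norm_num at h1
  linarith

theorem dilX_exists (g : X) : ∃ m : X, ∀ x : ℝ, 0 ≤ x → x ≤ 1 → evX m x = evX g (x / 4) := by
  refine ⟨mkX (fun x => evX g (x / 4)), fun x h0 h1 => ?_⟩
  exact evX_mkX ((continuous_evX g).comp (by fun_prop)) h0 h1

/-- injectivity of `P` on `[0,1/4]` -/
theorem P_inj_quarter (hinj : P_inj) (O : Ops) (g : X)
    (h : ∀ y : ℝ, 0 ≤ y → y ≤ 1 / 4 → evX (O.P g) y = 0) :
    ∀ x : ℝ, 0 ≤ x → x ≤ 1 / 4 → evX g x = 0 := by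
  obtain ⟨m, hm⟩ := dilX_exists g
  have hPm : O.P m = 0 := by
    apply X_ext
    intro y hy0 hy1
    have h1 := h (y / 4) (by linarith) (by linarith)
    rw [evX_P O g (y / 4) (by linarith) (by linarith)] at h1
    rw [evX_P O m y hy0 hy1, evX_zero]
    refine Eq.trans ?_ h1
    congr 1
    apply intervalIntegral.integral_congr
    intro t ht
    rw [Set.uIcc_of_le Th_le] at ht
    obtain ⟨c0, c1, c2⟩ := cos_mem hy0 hy1 ht.1 ht.2
    show Real.sin t ^ 2 * Real.cos t ^ 2 * evX m (y * Real.cos t)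
      = Real.sin t ^ 2 * Real.cos t ^ 2 * evX g (y / 4 * Real.cos t)
    rw [hm _ c0 c2]
    congr 2
    ring
  have hm0 : m = 0 := (hinj O).2.1 m hPm
  intro x hx0 hx1
  have h2 := hm (4 * x) (by linarith) (by linarith)
  rw [hm0, evX_zero] at h2
  rw [h2]
  congr 1
  ring

theorem wfn (hinj : P_inj) (hlead : P_lead) (hsmo : P_smo) : P_wfn := by
  intro O M e₀ η hη hM χ C b₀ f₀ hF
  obtain ⟨zh, hzh, hzh2⟩ := exists_zh hsmo hη hM
  have he := hη.pos
  set G : ℝ × ℝ → ℝ := fun p => (1 - χ p.2) * (p.2 ^ 2 * zh (p.1 * p.2))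
    + χ p.2 * (Real.pi / 24) with hG
  have hGs : ContDiff ℝ ∞ G := by
    have h1 : ContDiff ℝ ∞ (fun p : ℝ × ℝ => χ p.2) := hF.χ_smooth.comp contDiff_snd
    have h2 : ContDiff ℝ ∞ (fun p : ℝ × ℝ => zh (p.1 * p.2)) :=
      hzh.comp (contDiff_fst.mul contDiff_snd)
    exact ((contDiff_const.sub h1).mul ((contDiff_snd.pow 2).mul h2)).add
      (h1.mul contDiff_const)
  have hPv : ∀ ε : ℝ, ∀ y : ℝ, 0 ≤ y → y ≤ 1 → evX (O.P (mkX (vG G ε))) y = G (ε, y) := by
    intro ε y hy0 hy1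
    rw [P_vG hinj O hGs ε, evX_mkX (G_continuous hGs ε) hy0 hy1]
  refine ⟨vG G, e₀ / 2, by positivity, by linarith, vG_smooth hGs, ?_, ?_⟩
  · -- the leading order
    have hfb : Continuous (fun x => f₀ x * b₀ x) :=
      hF.f_smooth.continuous.mul hF.b_smooth.continuous
    have hz0 : zh 0 = Real.pi / 24 := by
      rw [hzh2 0 (by simpa using he)]
      exact zf_zero hlead hη hM hF
    have heq : O.P (mkX (vG G 0)) = O.P (mkX (fun x => f₀ x * b₀ x)) := by
      apply X_ext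
      intro y hy0 hy1
      rw [hPv 0 y hy0 hy1, evX_P O _ y hy0 hy1]
      have e : ∫ t in (0 : ℝ)..(Real.pi / 2), Real.sin t ^ 2 * Real.cos t ^ 2 *
            evX (mkX (fun x => f₀ x * b₀ x)) (y * Real.cos t)
          = ∫ t in (0 : ℝ)..(Real.pi / 2), Real.sin t ^ 2 * Real.cos t ^ 2 *
            (f₀ (y * Real.cos t) * b₀ (y * Real.cos t)) := by
        apply intervalIntegral.integral_congr
        intro t ht
        rw [Set.uIcc_of_le Th_le] at ht
        obtain ⟨c0, c1, c2⟩ := cos_mem hy0 hy1 ht.1 ht.2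
        show Real.sin t ^ 2 * Real.cos t ^ 2 *
            evX (mkX (fun x => f₀ x * b₀ x)) (y * Real.cos t) = _
        rw [evX_mkX hfb c0 c2]
      rw [e, hF.main y hy0 hy1, hF.C_eq]
      show (1 - χ y) * (y ^ 2 * zh (0 * y)) + χ y * (Real.pi / 24)
        = Real.pi / 24 * ((1 - χ y) * y ^ 2 + χ y)
      rw [zero_mul, hz0]
      ring
    have h0 : O.P (mkX (vG G 0) - mkX (fun x => f₀ x * b₀ x)) = 0 := by
      unfold Ops.P at heq ⊢
      rw [map_sub, mul_sub, smul_sub, map_sub, heq, sub_self]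
    have h1 := (hinj O).2.1 _ h0
    have h2 : mkX (vG G 0) = mkX (fun x => f₀ x * b₀ x) := sub_eq_zero.1 h1
    intro x hx0 hx1
    have h3 : evX (mkX (vG G 0)) x = evX (mkX (fun x => f₀ x * b₀ x)) x := by rw [h2]
    rwa [evX_mkX (vG_continuous hGs 0) hx0 hx1, evX_mkX hfb hx0 hx1] at h3
  · intro ε hε
    refine ⟨fun y hy0 hy1 => ?_, fun n hn => ?_⟩
    · rw [hPv ε y (by linarith) hy1]
      show (1 - χ y) * (y ^ 2 * zh (ε * y)) + χ y * (Real.pi / 24) = Real.pi / 24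
      rw [hF.χ_one y hy0]
      ring
    · have hzero : ∀ y : ℝ, 0 ≤ y → y ≤ 1 / 4 →
          evX (O.P (n - mkX (vG G ε))) y = 0 := by
        intro y hy0 hy1
        have hy1' : y ≤ 1 := by linarith
        have e1 : evX (O.P (n - mkX (vG G ε))) y
            = evX (O.P n) y - evX (O.P (mkX (vG G ε))) y := by
          unfold Ops.P
          rw [map_sub, mul_sub, smul_sub, map_sub, evX_sub]
        have e2 := That_scale hη hM (ε := ε) (by linarith) ⟨y, hy0, hy1'⟩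
        have habs : |ε * y| < e₀ / 2 := by
          rw [abs_mul, abs_of_nonneg hy0]
          nlinarith [abs_nonneg ε]
        have hn' : O.P n = That O η (ε, O.lift idX) := hn
        rw [e1, hn', hPv ε y hy0 hy1', e2]
        show y ^ 2 * zf O η (ε * y)
          - ((1 - χ y) * (y ^ 2 * zh (ε * y)) + χ y * (Real.pi / 24)) = 0
        rw [hF.χ_zero y hy1, hzh2 _ habs]
        ring
      intro x hx0 hx1
      have h1 := P_inj_quarter hinj O _ hzero x hx0 hx1
      rw [evX_sub, evX_mkX (vG_continuous hGs ε) hx0 (by linarith)] at h1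
      linarith

end

end Pool.Agent.W739.Uni
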