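import Pool.Agent.W739.Uni.Res
import Pool.Agent.W585.Param

/-! The function `v(ε,x)` attached to a smooth function `W(ε,y)`:
`∫_0^1 (s²-s³) ((D+4)(D+3)W)(ys) ds = W(y)` and the resulting solution of `Q u = Q`-equation. -/

set_option autoImplicit false

open Set MeasureTheory
open scoped ContDiff Topology

namespace Pool.Agent.W739.Uni

open Pool.Agent.W668.Uni

noncomputable section

/-- derivative in the second variable -/
def d2 (G : ℝ × ℝ → ℝ) (p : ℝ × ℝ) : ℝ := fderiv ℝ G p (0, 1)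

theorem d2_smooth {G : ℝ × ℝ → ℝ} (hG : ContDiff ℝ ∞ G) : ContDiff ℝ ∞ (d2 G) := by
  have h := hG.fderiv_right (m := ∞) (by simp)
  exact h.clm_apply contDiff_const

theorem d2_der {G : ℝ × ℝ → ℝ} (hG : ContDiff ℝ ∞ G) (ε y : ℝ) :
    HasDerivAt (fun y' => G (ε, y')) (d2 G (ε, y)) y := by
  have h1 : HasFDerivAt G (fderiv ℝ G (ε, y)) (ε, y) :=
    (hG.differentiable (by simp)).differentiableAt.hasFDerivAt
  have h2 : HasDerivAt (fun y' : ℝ => (ε, y')) ((0 : ℝ), (1 : ℝ)) y :=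
    (hasDerivAt_const y ε).prodMk (hasDerivAt_id y)
  exact h1.comp_hasDerivAt y h2

/-- `(D+4)(D+3) G`, `D = y ∂_y` -/
def LG (G : ℝ × ℝ → ℝ) (p : ℝ × ℝ) : ℝ :=
  p.2 ^ 2 * d2 (d2 G) p + 8 * p.2 * d2 G p + 12 * G p

theorem LG_smooth {G : ℝ × ℝ → ℝ} (hG : ContDiff ℝ ∞ G) : ContDiff ℝ ∞ (LG G) := by
  have h1 := d2_smooth hG
  have h2 := d2_smooth h1
  unfold LG
  fun_prop

theorem LG_int {G : ℝ × ℝ → ℝ} (hG : ContDiff ℝ ∞ G) (ε y : ℝ) :
    ∫ s in (0 : ℝ)..1, (s ^ 2 - s ^ 3) * LG G (ε, y * s) = G (ε, y) := by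
  have h1 := d2_smooth hG
  have hder : ∀ s : ℝ, HasDerivAt (fun s : ℝ => (s ^ 4 - s ^ 5) * (y * d2 G (ε, y * s))
      + (4 * s ^ 3 - 3 * s ^ 4) * G (ε, y * s)) ((s ^ 2 - s ^ 3) * LG G (ε, y * s)) s := by
    intro s
    have a0 : HasDerivAt (fun s : ℝ => y * s) y s := by
      simpa using (hasDerivAt_id s).const_mul y
    have a1 : HasDerivAt (fun s : ℝ => G (ε, y * s)) (d2 G (ε, y * s) * y) s :=
      (d2_der hG ε (y * s)).comp s a0
    have a2 : HasDerivAt (fun s : ℝ => d2 G (ε, y * s)) (d2 (d2 G) (ε, y * s) * y) s :=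
      (d2_der h1 ε (y * s)).comp s a0
    have p2 : HasDerivAt (fun s : ℝ => s ^ 4 - s ^ 5) (4 * s ^ 3 - 5 * s ^ 4) s :=
      ((hasDerivAt_pow 4 s).fun_sub (hasDerivAt_pow 5 s)).congr_deriv (by norm_num)
    have p3 : HasDerivAt (fun s : ℝ => 4 * s ^ 3 - 3 * s ^ 4) (12 * s ^ 2 - 12 * s ^ 3) s :=
      (((hasDerivAt_pow 3 s).const_mul 4).fun_sub
        ((hasDerivAt_pow 4 s).const_mul 3)).congr_deriv (by norm_num; ring)
    have h := (p2.fun_mul (a2.const_mul y)).fun_add (p3.fun_mul a1)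
    refine h.congr_deriv ?_
    unfold LG
    ring
  have hc : Continuous (fun s : ℝ => (s ^ 2 - s ^ 3) * LG G (ε, y * s)) := by
    have := (LG_smooth hG).continuous
    fun_prop
  rw [intervalIntegral.integral_eq_sub_of_hasDerivAt (fun s _ => hder s)
    (hc.intervalIntegrable _ _)]
  norm_num

/-- `v(ε,x) = (1/2π) ∫_0^{π/2} sin³ p ((D+4)(D+3)G)(ε, x sin p) dp` -/
def vG (G : ℝ × ℝ → ℝ) (ε x : ℝ) : ℝ :=
  1 / (2 * Real.pi) * ∫ p in (0 : ℝ)..(Real.pi / 2), Real.sin p ^ 3 * LG G (ε, x * Real.sin p)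

theorem vG_smooth {G : ℝ × ℝ → ℝ} (hG : ContDiff ℝ ∞ G) :
    ContDiff ℝ ∞ (fun p : ℝ × ℝ => vG G p.1 p.2) := by
  have h1 := LG_smooth hG
  have h2 : ContDiff ℝ ∞ (fun q : (ℝ × ℝ) × ℝ =>
      (fun (p : ℝ × ℝ) (t : ℝ) => Real.sin t ^ 3 * LG G (p.1, p.2 * Real.sin t)) q.1 q.2) := by
    have hs : ContDiff ℝ ∞ (fun q : (ℝ × ℝ) × ℝ => Real.sin q.2) :=
      Real.contDiff_sin.comp contDiff_snd
    have h3 : ContDiff ℝ ∞ (fun q : (ℝ × ℝ) × ℝ => (q.1.1, q.1.2 * Real.sin q.2)) :=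
      (contDiff_fst.comp contDiff_fst).prodMk ((contDiff_snd.comp contDiff_fst).mul hs)
    exact (hs.pow 3).mul (h1.comp h3)
  have h4 := Pool.Agent.W585.contDiff_param
    (F := fun (p : ℝ × ℝ) (t : ℝ) => Real.sin t ^ 3 * LG G (p.1, p.2 * Real.sin t)) h2 0
    (Real.pi / 2)
  exact contDiff_const.mul h4

theorem vG_continuous {G : ℝ × ℝ → ℝ} (hG : ContDiff ℝ ∞ G) (ε : ℝ) : Continuous (vG G ε) :=
  (vG_smooth hG).continuous.comp (continuous_const.prodMk continuous_id)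

theorem G_continuous {G : ℝ × ℝ → ℝ} (hG : ContDiff ℝ ∞ G) (ε : ℝ) :
    Continuous (fun y => G (ε, y)) :=
  hG.continuous.comp (continuous_const.prodMk continuous_id)

theorem P_vG (hinj : P_inj) (O : Ops) {G : ℝ × ℝ → ℝ} (hG : ContDiff ℝ ∞ G) (ε : ℝ) :
    O.P (mkX (vG G ε)) = mkX (fun y => G (ε, y)) := by
  obtain ⟨hQ, hP, hQP⟩ := hinj O
  have hLc := (LG_smooth hG).continuous
  have key : O.Q (O.P (mkX (vG G ε))) = O.Q (mkX (fun y => G (ε, y))) := by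
    apply X_ext
    intro x hx0 hx1
    rw [hQP _ x hx0 hx1, O.Q_ev _ x hx0 hx1]
    have e1 : ∫ s in (0 : ℝ)..1, (s ^ 2 - s ^ 3) * evX (mkX (vG G ε)) (x * s)
        = ∫ s in (0 : ℝ)..1, ∫ p in (0 : ℝ)..(Real.pi / 2), 1 / (2 * Real.pi) *
          (Real.sin p ^ 3 * ((s ^ 2 - s ^ 3) * LG G (ε, x * Real.sin p * s))) := by
      apply intervalIntegral.integral_congr
      intro s hs
      rw [Set.uIcc_of_le zero_le_one] at hs
      have hxs0 : 0 ≤ x * s := mul_nonneg hx0 hs.1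
      have hxs1 : x * s ≤ 1 := by
        calc x * s ≤ 1 * 1 := mul_le_mul hx1 hs.2 hs.1 zero_le_one
          _ = 1 := one_mul 1
      show (s ^ 2 - s ^ 3) * evX (mkX (vG G ε)) (x * s) = _
      rw [evX_mkX (vG_continuous hG ε) hxs0 hxs1]
      unfold vG
      show (s ^ 2 - s ^ 3) * (1 / (2 * Real.pi) *
          ∫ (p : ℝ) in (0 : ℝ)..(Real.pi / 2), Real.sin p ^ 3 * LG G (ε, x * s * Real.sin p))
        = ∫ p in (0 : ℝ)..(Real.pi / 2), 1 / (2 * Real.pi) *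
          (Real.sin p ^ 3 * ((s ^ 2 - s ^ 3) * LG G (ε, x * Real.sin p * s)))
      rw [intervalIntegral.integral_const_mul, ← mul_assoc, mul_comm (s ^ 2 - s ^ 3),
        mul_assoc, ← intervalIntegral.integral_const_mul]
      congr 1
      apply intervalIntegral.integral_congr
      intro p _
      show (s ^ 2 - s ^ 3) * (Real.sin p ^ 3 * LG G (ε, x * s * Real.sin p))
        = Real.sin p ^ 3 * ((s ^ 2 - s ^ 3) * LG G (ε, x * Real.sin p * s))
      rw [mul_right_comm x s]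
      ring
    have e2 : ∫ s in (0 : ℝ)..1, ∫ p in (0 : ℝ)..(Real.pi / 2), 1 / (2 * Real.pi) *
          (Real.sin p ^ 3 * ((s ^ 2 - s ^ 3) * LG G (ε, x * Real.sin p * s)))
        = ∫ p in (0 : ℝ)..(Real.pi / 2), ∫ s in (0 : ℝ)..1, 1 / (2 * Real.pi) *
          (Real.sin p ^ 3 * ((s ^ 2 - s ^ 3) * LG G (ε, x * Real.sin p * s))) := by
      apply MeasureTheory.intervalIntegral_intervalIntegral_swap
      have hcont : Continuous (Function.uncurry (fun s p : ℝ => 1 / (2 * Real.pi) *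
          (Real.sin p ^ 3 * ((s ^ 2 - s ^ 3) * LG G (ε, x * Real.sin p * s))))) := by
        unfold Function.uncurry
        fun_prop
      apply IntegrableOn.mono_set (t := Set.uIcc (0 : ℝ) 1 ×ˢ Set.uIcc (0 : ℝ) (Real.pi / 2))
      · exact hcont.continuousOn.integrableOn_compact
          (isCompact_uIcc.prod isCompact_uIcc)
      · exact Set.prod_mono Set.uIoc_subset_uIcc Set.uIoc_subset_uIcc
    have e3 : ∫ p in (0 : ℝ)..(Real.pi / 2), ∫ s in (0 : ℝ)..1, 1 / (2 * Real.pi) *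
          (Real.sin p ^ 3 * ((s ^ 2 - s ^ 3) * LG G (ε, x * Real.sin p * s)))
        = 1 / (2 * Real.pi) * ∫ p in (0 : ℝ)..(Real.pi / 2),
          Real.sin p ^ 3 * G (ε, x * Real.sin p) := by
      rw [← intervalIntegral.integral_const_mul]
      apply intervalIntegral.integral_congr
      intro p _
      show (∫ s in (0 : ℝ)..1, 1 / (2 * Real.pi) *
          (Real.sin p ^ 3 * ((s ^ 2 - s ^ 3) * LG G (ε, x * Real.sin p * s))))
        = 1 / (2 * Real.pi) * (Real.sin p ^ 3 * G (ε, x * Real.sin p))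
      rw [intervalIntegral.integral_const_mul, intervalIntegral.integral_const_mul,
        LG_int hG ε (x * Real.sin p)]
    rw [e1, e2, e3, ← mul_assoc]
    have hpi : (2 * Real.pi) * (1 / (2 * Real.pi)) = 1 := by
      have := Real.pi_pos
      field_simp
    rw [hpi, one_mul]
    apply intervalIntegral.integral_congr
    intro p hp
    rw [Set.uIcc_of_le Th_le] at hp
    have hs0 : 0 ≤ Real.sin p := Real.sin_nonneg_of_nonneg_of_le_pi hp.1 (by
      linarith [hp.2, Real.pi_pos])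
    show Real.sin p ^ 3 * G (ε, x * Real.sin p)
      = Real.sin p ^ 3 * evX (mkX (fun y => G (ε, y))) (x * Real.sin p)
    rw [evX_mkX (G_continuous hG ε) (mul_nonneg hx0 hs0)]
    calc x * Real.sin p ≤ 1 * 1 := mul_le_mul hx1 (Real.sin_le_one p) hs0 zero_le_one
      _ = 1 := one_mul 1
  have h0 : O.Q (O.P (mkX (vG G ε)) - mkX (fun y => G (ε, y))) = 0 := by
    rw [map_sub, key, sub_self]
  exact sub_eq_zero.1 (hQ _ h0)

end

end Pool.Agent.W739.Uni
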